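import Pool.Agent.Helper13.PS.St2

/-!
# Project PS part 2 (UP), module UJ
-/

set_option autoImplicit false

namespace Pool.Agent.Helper90.PS

open Finset Pool.Agent.Helper76.ND Pool.Agent.Helper13.PS

private theorem num_L {L : ℝ} (hL : Real.log 2 ≤ L) : 1 ≤ 10 ^ 7 * L ^ 4 / 2 := by
  have h2 : (0.69 : ℝ) < Real.log 2 := by
    have := Real.log_two_gt_d9
    linarith
  have h1 : (0.69 : ℝ) ≤ L := by linarith
  have h3 : (0.69 : ℝ) ^ 4 ≤ L ^ 4 := pow_le_pow_left₀ (by norm_num) h1 4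
  have h4 : (1 : ℝ) ≤ 10 ^ 7 * (0.69 : ℝ) ^ 4 / 2 := by norm_num
  linarith

/-- the exponent is bounded in the trivial case -/
private theorem triv_case {ε L t : ℝ} (hε : 0 < ε) (hε1 : ε ≤ 1) (hL : 0 < L) (ht : t ≤ 2.9 * L)
    (h : (ε * L / 450) ^ 2 < 2500 ∨ (ε * L / 450) ^ 2 < t) : ε ^ 4 * L ≤ 10 ^ 6 := by
  have hεL : 0 < ε * L := mul_pos hε hL
  rcases h with h | h
  · have h1 : ε * L / 450 < 50 := by
      by_contra hc
      push Not at hc
      have : (50 : ℝ) ^ 2 ≤ (ε * L / 450) ^ 2 := pow_le_pow_left₀ (by norm_num) hc 2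
      norm_num at this
      linarith
    have h2 : ε * L < 22500 := by linarith
    have h3 : ε ^ 4 * L ≤ ε * L := by
      have : ε ^ 4 ≤ ε := by
        calc ε ^ 4 ≤ ε ^ 1 := pow_le_pow_of_le_one hε.le hε1 (by norm_num)
          _ = ε := pow_one ε
      exact mul_le_mul_of_nonneg_right this hL.le
    linarith
  · have h1 : (ε * L / 450) ^ 2 < 2.9 * L := lt_of_lt_of_le h ht
    have h2 : ε ^ 2 * L < 587250 := by
      have h3 : (ε ^ 2 * L) * L < 587250 * L := by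
        have h4 : (ε * L / 450) ^ 2 = ε ^ 2 * L * L / 202500 := by ring
        rw [h4] at h1
        rw [div_lt_iff₀ (by norm_num)] at h1
        linarith
      exact lt_of_mul_lt_mul_right h3 hL.le
    have h3 : ε ^ 4 * L ≤ ε ^ 2 * L := by
      have : ε ^ 4 ≤ ε ^ 2 := pow_le_pow_of_le_one hε.le hε1 (by norm_num)
      exact mul_le_mul_of_nonneg_right this hL.le
    linarith

private theorem exp_case {ε L t : ℝ} (hε : 0 < ε) (hL : 0 < L) (ht0 : 0 < t) (ht : t ≤ 2.9 * L) :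
    ε ^ 4 * L / 10 ^ 13 ≤ ((ε * L / 450) ^ 2) ^ 2 / t ^ 3 := by
  have h1 : t ^ 3 ≤ (2.9 * L) ^ 3 := pow_le_pow_left₀ ht0.le ht 3
  have h2 : 0 < t ^ 3 := by positivity
  rw [le_div_iff₀ h2]
  have h3 : ε ^ 4 * L / 10 ^ 13 * t ^ 3 ≤ ε ^ 4 * L / 10 ^ 13 * (2.9 * L) ^ 3 :=
    mul_le_mul_of_nonneg_left h1 (by positivity)
  refine h3.trans ?_
  have h4 : ε ^ 4 * L / 10 ^ 13 * (2.9 * L) ^ 3 = ε ^ 4 * L ^ 4 * (2.9 ^ 3 / 10 ^ 13) := by ring
  have h5 : ((ε * L / 450) ^ 2) ^ 2 = ε ^ 4 * L ^ 4 * (1 / 450 ^ 4) := by ring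
  rw [h4, h5]
  apply mul_le_mul_of_nonneg_left _ (by positivity)
  norm_num

private theorem scale (x : ℕ) (hx : 2 ≤ x) : ∃ t : ℕ, 1 ≤ t ∧ x ≤ 2 ^ t ∧ 2 ^ t ≤ 2 * x ∧
    (t : ℝ) ≤ 2.9 * Real.log x := by
  refine ⟨Nat.log 2 x + 1, by omega, (Nat.lt_pow_succ_log_self (by norm_num) x).le, ?_, ?_⟩
  · have := Nat.pow_log_le_self 2 (show x ≠ 0 by omega)
    rw [pow_succ]
    omega
  · have hx0 : (0 : ℝ) < x := by exact_mod_cast (by omega : 0 < x)
    have h1 : ((2 ^ Nat.log 2 x : ℕ) : ℝ) ≤ x := by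
      exact_mod_cast Nat.pow_log_le_self 2 (show x ≠ 0 by omega)
    have h2 : (Nat.log 2 x : ℝ) * Real.log 2 ≤ Real.log x := by
      have := Real.log_le_log (by positivity) h1
      rwa [Nat.cast_pow, Real.log_pow, Nat.cast_ofNat] at this
    have h3 : Real.log 2 ≤ Real.log x :=
      Real.log_le_log (by norm_num) (by exact_mod_cast hx)
    have h4 : (0.6931471803 : ℝ) < Real.log 2 := Real.log_two_gt_d9
    push_cast
    have h5 : 0 < Real.log 2 := by linarith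
    -- (log + 1) * log 2 ≤ 2 L
    have h6 : ((Nat.log 2 x : ℝ) + 1) * Real.log 2 ≤ 2 * Real.log x := by nlinarith
    have h7 : 2 * Real.log x ≤ 2.9 * Real.log x * Real.log 2 := by nlinarith
    have h8 : ((Nat.log 2 x : ℝ) + 1) * Real.log 2 ≤ 2.9 * Real.log x * Real.log 2 := h6.trans h7
    exact le_of_mul_le_mul_right h8 h5

open Classical in
private theorem main1 (hUF : StUF) (hUI : StUI) (x : ℕ) (hx : 2 ≤ x) (ε : ℝ) (hε : 0 < ε)
    (hε1 : ε ≤ 1) :
    (((Icc 1 x).filter (fun n : ℕ => ∃ k : ℕ, (k : ℝ) * Real.log (4 / 3) ≤ 3 * Real.log n ∧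
      ε * Real.log x <
        |Real.log (T^[k] n : ℕ) - (Real.log n - k * Real.log (4 / 3) / 3)|)).card : ℝ) ≤
      10 ^ 7 * Real.log x ^ 4 * (x * Real.exp (-(ε ^ 4 * Real.log x / 10 ^ 13))) := by
  obtain ⟨t, ht1, hxt, htx, htL⟩ := scale x hx
  set L := Real.log x with hLd
  have hx0 : (0 : ℝ) < x := by exact_mod_cast (by omega : 0 < x)
  have hL2 : Real.log 2 ≤ L := Real.log_le_log (by norm_num) (by exact_mod_cast hx)
  have hL0 : 0 < L := lt_of_lt_of_le (Real.log_pos (by norm_num)) hL2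
  set H : ℝ := (ε * L / 450) ^ 2 with hH
  have ht0 : (0 : ℝ) < t := by exact_mod_cast ht1
  by_cases hcase : H < 2500 ∨ H < t
  · have h1 := triv_case hε hε1 hL0 htL hcase
    have h2 : (1 : ℝ) / 2 ≤ Real.exp (-(ε ^ 4 * L / 10 ^ 13)) := by
      have h3 := Real.add_one_le_exp (-(ε ^ 4 * L / 10 ^ 13))
      have h4 : ε ^ 4 * L / 10 ^ 13 ≤ 1 / 2 := by
        rw [div_le_iff₀ (by norm_num)]
        linarith
      linarith
    have h3 : (((Icc 1 x).filter (fun n : ℕ => ∃ k : ℕ, (k : ℝ) * Real.log (4 / 3) ≤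
        3 * Real.log n ∧ ε * L <
        |Real.log (T^[k] n : ℕ) - (Real.log n - k * Real.log (4 / 3) / 3)|)).card : ℝ) ≤ x := by
      have := card_filter_le (Icc 1 x) (fun n : ℕ => ∃ k : ℕ, (k : ℝ) * Real.log (4 / 3) ≤
        3 * Real.log n ∧ ε * L <
        |Real.log (T^[k] n : ℕ) - (Real.log n - k * Real.log (4 / 3) / 3)|)
      rw [Nat.card_Icc, Nat.add_sub_cancel] at this
      exact_mod_cast this
    refine h3.trans ?_
    have h5 := num_L hL2
    calc (x : ℝ) = 1 * x := (one_mul _).symm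
      _ ≤ (10 ^ 7 * L ^ 4 / 2) * x := mul_le_mul_of_nonneg_right h5 hx0.le
      _ = 10 ^ 7 * L ^ 4 * (x * (1 / 2)) := by ring
      _ ≤ 10 ^ 7 * L ^ 4 * (x * Real.exp (-(ε ^ 4 * L / 10 ^ 13))) := by gcongr
  · push Not at hcase
    obtain ⟨hH1, hH2⟩ := hcase
    have hsq : 450 * Real.sqrt H = ε * L := by
      rw [hH, Real.sqrt_sq (by positivity)]
      ring
    -- the number of stages
    obtain ⟨m, hm⟩ : ∃ m : ℕ, ((7937 / 10000 : ℝ) ^ m * t) ^ 2 < 2500 * H := by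
      have h1 : Filter.Tendsto (fun m : ℕ => ((7937 / 10000 : ℝ) ^ m * t) ^ 2) Filter.atTop
          (nhds 0) := by
        have h2 : Filter.Tendsto (fun m : ℕ => (7937 / 10000 : ℝ) ^ m) Filter.atTop (nhds 0) :=
          tendsto_pow_atTop_nhds_zero_of_lt_one (by norm_num) (by norm_num)
        have h3 := (h2.mul_const (t : ℝ)).pow 2
        simpa using h3
      have h2 : ∀ᶠ m : ℕ in Filter.atTop, ((7937 / 10000 : ℝ) ^ m * t) ^ 2 < 2500 * H :=
        h1.eventually_lt_const (by linarith)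
      exact h2.exists
    have hsub : (Icc 1 x).filter (fun n : ℕ => ∃ k : ℕ, (k : ℝ) * Real.log (4 / 3) ≤
        3 * Real.log n ∧ ε * L <
        |Real.log (T^[k] n : ℕ) - (Real.log n - k * Real.log (4 / 3) / 3)|) ⊆
        (Icc 1 (2 ^ t)).filter (fun N => XU H m t N) := by
      intro n hn
      rw [mem_filter, mem_Icc] at hn ⊢
      obtain ⟨⟨hn1, hn2⟩, k, hk, hbad⟩ := hn
      refine ⟨⟨hn1, hn2.trans hxt⟩, ?_⟩
      by_contra hX
      have := hUI H hH1 m t n hH2 hm hn1 (hn2.trans hxt) hX k hk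
      rw [hsq] at this
      linarith
    have h1 : (((Icc 1 x).filter (fun n : ℕ => ∃ k : ℕ, (k : ℝ) * Real.log (4 / 3) ≤
        3 * Real.log n ∧ ε * L <
        |Real.log (T^[k] n : ℕ) - (Real.log n - k * Real.log (4 / 3) / 3)|)).card : ℝ) ≤
        (((Icc 1 (2 ^ t)).filter (fun N => XU H m t N)).card : ℝ) := by
      exact_mod_cast card_le_card hsub
    refine (h1.trans (hUF H hH1 m t)).trans ?_
    have h2 : (2 : ℝ) ^ t ≤ 2 * x := by exact_mod_cast htx
    have h3 : Real.exp (-(H ^ 2 / (t : ℝ) ^ 3)) ≤ Real.exp (-(ε ^ 4 * L / 10 ^ 13)) := by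
      rw [Real.exp_le_exp, neg_le_neg_iff]
      exact exp_case hε hL0 ht0 htL
    have h4 : (t : ℝ) ^ 4 ≤ (2.9 * L) ^ 4 := pow_le_pow_left₀ ht0.le htL 4
    calc 600 * (t : ℝ) ^ 4 * 2 ^ t * Real.exp (-(H ^ 2 / (t : ℝ) ^ 3))
        ≤ 600 * (2.9 * L) ^ 4 * (2 * x) * Real.exp (-(ε ^ 4 * L / 10 ^ 13)) := by gcongr
      _ = (600 * 2.9 ^ 4 * 2) * (L ^ 4 * (x * Real.exp (-(ε ^ 4 * L / 10 ^ 13)))) := by ring
      _ ≤ 10 ^ 7 * (L ^ 4 * (x * Real.exp (-(ε ^ 4 * L / 10 ^ 13)))) := by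
          apply mul_le_mul_of_nonneg_right _ (by positivity)
          norm_num
      _ = 10 ^ 7 * L ^ 4 * (x * Real.exp (-(ε ^ 4 * L / 10 ^ 13))) := by ring

open Classical in
private theorem main2 (hUF : StUF) (hUI : StUI) (x : ℕ) (hx : 2 ≤ x) (B : ℕ) (hB : 2 ≤ B)
    (hBx : B ≤ x) :
    (((Icc 1 x).filter (fun n : ℕ => ∀ k : ℕ, B < T^[k] n)).card : ℝ) ≤
      10 ^ 7 * Real.log x ^ 4 * (x * Real.exp (-((Real.log B / (2 * Real.log x)) ^ 4
        * Real.log x / 10 ^ 13))) := by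
  have hx0 : (0 : ℝ) < x := by exact_mod_cast (by omega : 0 < x)
  have hL2 : Real.log 2 ≤ Real.log x := Real.log_le_log (by norm_num) (by exact_mod_cast hx)
  have hl2 : (0.69 : ℝ) < Real.log 2 := by
    have := Real.log_two_gt_d9
    linarith
  have hL0 : 0 < Real.log x := by linarith
  have hB2 : Real.log 2 ≤ Real.log B := Real.log_le_log (by norm_num) (by exact_mod_cast hB)
  have hBL : Real.log B ≤ Real.log x :=
    Real.log_le_log (by exact_mod_cast (by omega : 0 < B)) (by exact_mod_cast hBx)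
  have hε : 0 < Real.log B / (2 * Real.log x) := by
    apply div_pos <;> linarith
  have hε1 : Real.log B / (2 * Real.log x) ≤ 1 := by
    rw [div_le_one (by linarith)]
    linarith
  refine le_trans ?_ (main1 hUF hUI x hx _ hε hε1)
  have hsub : (Icc 1 x).filter (fun n : ℕ => ∀ k : ℕ, B < T^[k] n) ⊆
      (Icc 1 x).filter (fun n : ℕ => ∃ k : ℕ, (k : ℝ) * Real.log (4 / 3) ≤ 3 * Real.log n ∧
      Real.log B / (2 * Real.log x) * Real.log x <
        |Real.log (T^[k] n : ℕ) - (Real.log n - k * Real.log (4 / 3) / 3)|) := by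
    intro n hn
    rw [mem_filter] at hn ⊢
    obtain ⟨hn1, hn2⟩ := hn
    refine ⟨hn1, ?_⟩
    have hl43 : 0 < Real.log (4 / 3) := Real.log_pos (by norm_num)
    have hl43' : Real.log (4 / 3) ≤ 1 / 3 := by
      have := Real.log_le_sub_one_of_pos (show (0 : ℝ) < 4 / 3 by norm_num)
      linarith
    have hlog0 : 0 ≤ Real.log n := Real.log_natCast_nonneg n
    set k : ℕ := ⌊3 * Real.log n / Real.log (4 / 3)⌋₊ with hk
    have hk1 : (k : ℝ) * Real.log (4 / 3) ≤ 3 * Real.log n := by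
      have := Nat.floor_le (show 0 ≤ 3 * Real.log n / Real.log (4 / 3) by positivity)
      rwa [← hk, le_div_iff₀ hl43] at this
    have hk2 : 3 * Real.log n < ((k : ℝ) + 1) * Real.log (4 / 3) := by
      have := Nat.lt_floor_add_one (3 * Real.log n / Real.log (4 / 3))
      rwa [← hk, div_lt_iff₀ hl43] at this
    refine ⟨k, hk1, ?_⟩
    have h1 : Real.log B < Real.log (T^[k] n : ℕ) :=
      Real.log_lt_log (by exact_mod_cast (by omega : 0 < B)) (by exact_mod_cast hn2 k)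
    have h2 : Real.log B / (2 * Real.log x) * Real.log x = Real.log B / 2 := by
      field_simp
    rw [h2]
    refine lt_of_lt_of_le ?_ (le_abs_self _)
    have h3 : Real.log n - k * Real.log (4 / 3) / 3 < 1 / 9 := by nlinarith
    linarith
  exact_mod_cast card_le_card hsub

theorem hUJ (hUF : StUF) (hUI : StUI) : StUJ := by
  classical
  refine ⟨10 ^ 7, 1 / (16 * 10 ^ 13), by norm_num, by norm_num, ?_⟩
  intro x hx
  have hx0 : (0 : ℝ) < x := by exact_mod_cast (by omega : 0 < x)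
  have hL2 : Real.log 2 ≤ Real.log x := Real.log_le_log (by norm_num) (by exact_mod_cast hx)
  have hL0 : 0 < Real.log x := lt_of_lt_of_le (Real.log_pos (by norm_num)) hL2
  refine ⟨fun ε hε hε1 => ?_, fun B hB hBx => ?_⟩
  · refine (main1 hUF hUI x hx ε hε hε1).trans ?_
    apply mul_le_mul_of_nonneg_left _ (by positivity)
    have h1 : (x : ℝ) ^ (1 - 1 / (16 * 10 ^ 13) * ε ^ 4)
        = x * Real.exp (-(ε ^ 4 * Real.log x / (16 * 10 ^ 13))) := by
      rw [Real.rpow_def_of_pos hx0]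
      have h2 : Real.log x * (1 - 1 / (16 * 10 ^ 13) * ε ^ 4)
          = Real.log x + -(ε ^ 4 * Real.log x / (16 * 10 ^ 13)) := by ring
      rw [h2, Real.exp_add, Real.exp_log hx0]
    rw [h1]
    apply mul_le_mul_of_nonneg_left _ hx0.le
    rw [Real.exp_le_exp, neg_le_neg_iff]
    apply div_le_div_of_nonneg_left (by positivity) (by norm_num) (by norm_num)
  · refine (main2 hUF hUI x hx B hB hBx).trans ?_
    rw [mul_assoc (10 ^ 7 * Real.log x ^ 4)]
    apply mul_le_mul_of_nonneg_left _ (by positivity)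
    apply mul_le_mul_of_nonneg_left _ hx0.le
    rw [Real.exp_le_exp, neg_le_neg_iff]
    have h1 : (Real.log B / (2 * Real.log x)) ^ 4 * Real.log x / 10 ^ 13
        = 1 / (16 * 10 ^ 13) * Real.log B ^ 4 / Real.log x ^ 3 := by
      field_simp
      norm_num
    rw [h1]

end Pool.Agent.Helper90.PS
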